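import Pool.Agent.Results.MP_127ef0_nt.FiveXPlusBLogTime
import Pool.Agent.U513.AP.Sparse

/-!
# Trajectories of the maps `x / 2`, `(5 x + b) / 2` near integral polynomials at simultaneous approximations

The starting file bounds the number of the `n` whose trajectory descends below `|n| ^ (1 - δ)` within `A log |n|` steps. Here: for all
points `α` outside of a set of small Hausdorff dimension, the trajectories of ALL integers near integral polynomials at ALL
approximations of `α` with a large denominator stay above `|n| ^ (1 - δ)` for `A log |n|` steps, for every `A` and EVERY odd `b` prime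
to `5`.
-/

set_option autoImplicit false

open Finset

namespace Pool.Agent.Results.MP_127ef0_nt.Approximations

open Pool.Agent.U513.AP
open Pool.Agent.Results.MP_127ef0_nt.FiveXPlusBLogTime (T IsEta kappa Descending)

/-- `n` is `0` or its trajectory stays above `|n| ^ (1 - δ)` during `A log |n|` steps. -/
def Stays (δ : ℝ) (b : ℤ) (A : ℕ) (n : ℤ) : Prop :=
  n ≠ 0 → ∀ k : ℕ, (k : ℝ) ≤ A * Real.log |(n : ℝ)| → |(n : ℝ)| ^ (1 - δ) < |(((T b)^[k] n : ℤ) : ℝ)|

/-- There is `η` with `0.6509 < η < 0.65095`, `2 ^ η = 1 + 5 ^ (η - 1)` such that for all `0 < δ ≤ 1` the properties that the trajectories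
of `n` and `-n` under `x / 2`, `(5 x + b) / 2` stay above `|n| ^ (1 - δ)` during `A log |n|` steps, for ALL odd `b` prime to `5` and all
natural `A`, hold at approximations outside of exceptional sets of exponent `1 - δ (1 - η)`. -/
theorem result : ∃ η : ℝ, IsEta η ∧ ∀ δ : ℝ, 0 < δ → δ ≤ 1 →
    AtApproximations (ι := {b : ℤ // Odd b ∧ ¬ (5 : ℤ) ∣ b} × ℕ) (1 - δ * (1 - η))
      (fun i (n : ℕ) => Stays δ i.1 i.2 n ∧ Stays δ i.1 i.2 (-(n : ℤ))) := by
  classical
  obtain ⟨⟨η, hη⟩, h0⟩ := FiveXPlusBLogTime.result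
  have h1 := hη.1
  have h2 := hη.2.1
  refine ⟨η, hη, fun δ hδ hδ1 => ?_⟩
  refine sparse_law_int (by nlinarith) (fun i : {b : ℤ // Odd b ∧ ¬ (5 : ℤ) ∣ b} × ℕ => Stays δ i.1 i.2) fun i ε hε => ?_
  obtain ⟨⟨b, hb, hb5⟩, A⟩ := i
  have h := (h0 η hη b hb hb5).1
  obtain ⟨A', hA'⟩ : ∃ A' : ℝ, A' = max (A : ℝ) (kappa η) := ⟨_, rfl⟩
  obtain ⟨X₁, hX₁⟩ := h 1 (Or.inl rfl) A' (by rw [hA']; exact le_max_right _ _) δ hδ hδ1 ε hε
  obtain ⟨X₂, hX₂⟩ := h (-1) (Or.inr rfl) A' (by rw [hA']; exact le_max_right _ _) δ hδ hδ1 ε hε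
  obtain ⟨X₀, hX₀⟩ := exists_nat_ge (max X₁ X₂)
  refine ⟨2, X₀, fun X hX => ?_⟩
  have hXr : (X₀ : ℝ) ≤ X := by exact_mod_cast hX
  have g1 := (hX₁ X ((le_max_left _ _).trans (hX₀.trans hXr))).2
  have g2 := (hX₂ X ((le_max_right _ _).trans (hX₀.trans hXr))).2
  have hf : ∀ s : ℤ, (Descending b s A' δ X).Finite := by
    intro s
    refine (Set.finite_Icc (-(X : ℤ)) X).subset ?_
    rintro n ⟨-, hn, -⟩
    rw [Set.mem_Icc, ← abs_le]
    exact_mod_cast hn
  have hsub : {n : ℤ | |n| ≤ X ∧ ¬ Stays δ b A n} ⊆ Descending b 1 A' δ X ∪ Descending b (-1) A' δ X := by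
    rintro n ⟨hn, hs⟩
    unfold Stays at hs
    push Not at hs
    obtain ⟨hn0, k, hk, hle⟩ := hs
    have hn1 : (1 : ℝ) ≤ |(n : ℝ)| := by
      rw [← Int.cast_abs]
      exact_mod_cast Int.one_le_abs hn0
    have hk' : (k : ℝ) ≤ A' * Real.log |(n : ℝ)| := by
      refine hk.trans (mul_le_mul_of_nonneg_right ?_ (Real.log_nonneg hn1))
      rw [hA']
      exact le_max_left _ _
    have hnX : |(n : ℝ)| ≤ (X : ℝ) := by
      rw [← Int.cast_abs]
      exact_mod_cast hn
    rcases lt_or_gt_of_ne hn0 with h0 | h0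
    · exact Or.inr ⟨by omega, hnX, k, hk', hle⟩
    · exact Or.inl ⟨by omega, hnX, k, hk', hle⟩
  have h3 : ({n : ℤ | |n| ≤ X ∧ ¬ Stays δ b A n}.ncard : ℝ) ≤
      (Descending b 1 A' δ X).ncard + (Descending b (-1) A' δ X).ncard := by
    have := (Set.ncard_le_ncard hsub ((hf 1).union (hf (-1)))).trans (Set.ncard_union_le _ _)
    exact_mod_cast this
  linarith

end Pool.Agent.Results.MP_127ef0_nt.Approximations
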